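import Pool.Agent.Helper20.RG.St1

/-!
# RG module RDG: the ridge theorem
-/

set_option autoImplicit false

open MeasureTheory Set Filter Topology
open scoped ENNReal RealInnerProductSpace
open Pool.Agent.Helper68.LM (Pl BB Bd Av HL ft fm DQ)
open Pool.Agent.Helper20.RG

namespace Pool.Agent.Helper67.RG

private lemma pr_continuous (s : ℝ) : Continuous (pr s) := by
  unfold pr
  fun_prop

private lemma pr_isOpenMap (hPT : StPT) (s : ℝ) : IsOpenMap (pr s) := by
  obtain ⟨h1, -⟩ := hPT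
  have h := ((EuclideanSpace.proj (1 : Fin 2) : EuclideanSpace ℝ (Fin 2) →L[ℝ] ℝ) -
    s • (EuclideanSpace.proj (0 : Fin 2) : EuclideanSpace ℝ (Fin 2) →L[ℝ] ℝ)).isOpenMap (by
      intro ρ
      refine ⟨pt 0 ρ, ?_⟩
      simp [(h1 0 ρ).1, (h1 0 ρ).2])
  exact h

private lemma meas_Om (I : Set (ℤ × ℤ)) : MeasurableSet (Om I) := by
  unfold Om
  refine MeasurableSet.biUnion (Set.to_countable I) fun a _ => ?_
  unfold dI5
  exact measurableSet_Icc

private lemma meas_ind (O : Set ℝ) (hO : MeasurableSet O) : Measurable (ind O) := by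
  unfold ind
  exact measurable_const.indicator hO

private lemma meas_bL (L : ℝ) (hL : 0 ≤ L) (h : ℝ → ℝ) (hh : Measurable h) :
    Measurable (bL L h) := by
  unfold bL
  apply Measurable.const_mul
  have h1 : (fun t : ℝ => ∫ r in (-L)..L, h (t + r)) =
      fun t : ℝ => ∫ r, h (t + r) ∂(volume.restrict (Ioc (-L) L)) := by
    funext t
    rw [intervalIntegral.integral_of_le (by linarith)]
  rw [h1]
  have h2 : StronglyMeasurable (fun q : ℝ × ℝ => h (q.1 + q.2)) :=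
    (hh.comp (measurable_fst.add measurable_snd)).stronglyMeasurable
  exact (h2.integral_prod_right (ν := volume.restrict (Ioc (-L) L))).measurable

private lemma meas_Gs (N : ℕ) (s : ℕ → ℝ) (I : ℕ → Set (ℤ × ℤ)) : Measurable (Gs N s I) := by
  unfold Gs
  refine Finset.measurable_sum _ fun j _ => ?_
  exact (meas_ind _ (meas_Om _)).comp (pr_continuous _).measurable

private lemma meas_Gv (N : ℕ) (s : ℕ → ℝ) (I : ℕ → Set (ℤ × ℤ)) (L : ℝ) (hL : 0 ≤ L) :
    Measurable (Gv N s I L) := by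
  unfold Gv
  refine Finset.measurable_sum _ fun j _ => ?_
  exact (meas_bL L hL _ (meas_ind _ (meas_Om _))).comp (pr_continuous _).measurable

private lemma meas_Sq (z : Pl) (r : ℝ) : MeasurableSet (Sq z r) := by
  unfold Sq
  refine MeasurableSet.inter ?_ ?_
  · have h : Continuous fun y : Pl => |y 0 - z 0| := by fun_prop
    exact measurableSet_le h.measurable measurable_const
  · have h : Continuous fun y : Pl => |y 1 - z 1| := by fun_prop
    exact measurableSet_le h.measurable measurable_const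

private lemma meas_Hs (N : ℕ) (s : ℕ → ℝ) (I : ℕ → Set (ℤ × ℤ)) (z : Pl) (L L₂ : ℝ)
    (hL : 0 ≤ L) : MeasurableSet (Hs N s I z L L₂) := by
  unfold Hs
  refine MeasurableSet.inter (meas_Sq z L₂) (MeasurableSet.inter ?_ ?_)
  · exact measurableSet_lt measurable_const (meas_Gs N s I)
  · exact measurableSet_le (meas_Gv N s I L hL) ((meas_Gs N s I).div_const 4)

private lemma cut_eq_one (z : Pl) (L₂ : ℝ) (h : 0 < L₂) (y : Pl) (hy : y ∈ Sq z L₂) :
    cut z L₂ y = 1 := by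
  have h1 : ∀ t : ℝ, |t| ≤ 1 → c1 t = 1 := by
    intro t ht
    unfold c1
    rw [min_eq_left (by linarith), max_eq_right zero_le_one]
  obtain ⟨h2, h3⟩ := hy
  unfold cut
  rw [h1, h1, mul_one]
  · rw [abs_div, abs_of_pos h, div_le_one h]
    exact h3
  · rw [abs_div, abs_of_pos h, div_le_one h]
    exact h2

theorem hRDG (hPT : StPT) (hRID : StRID) (hRA : StRA) (hRF1 : StRF1) (hRF2 : StRF2)
    (hSM3 : StSM3) : StRDG := by
  refine ⟨1000000, by norm_num, ?_⟩
  intro N s Et Er z p L L₂ α D m nst R hs hEt hEr hα hα1 hpL hNL hexo hmn hm1 hD hDm hR hx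
  rcases R.eq_empty_or_nonempty with hRe | ⟨x₀, hx₀⟩
  · rw [hRe, measure_empty]
    exact bot_le
  -- sizes
  have hmN : m ≤ N := by
    refine (hx x₀ hx₀).1.trans ?_
    have h1 : {j : ℕ | j < N ∧ x₀ ∈ Et j}.ncard ≤ {j : ℕ | j < N}.ncard :=
      Set.ncard_le_ncard (fun j hj => hj.1) (Set.finite_lt_nat N)
    have h2 : {j : ℕ | j < N}.ncard = N := by
      have : {j : ℕ | j < N} = ((Finset.range N : Finset ℕ) : Set ℕ) := by
        ext j
        simp
      rw [this, Set.ncard_coe_finset, Finset.card_range]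
    rw [h2] at h1
    exact_mod_cast h1
  have h2p : (0 : ℝ) < (2 : ℝ) ^ p := zpow_pos (by norm_num) p
  have hN1000 : (1000 : ℝ) ≤ N := hm1.trans hmN
  have hLpos : 0 < L := by
    have : 0 < α * L := by linarith
    exact (pos_iff_pos_of_mul_pos this).mp hα
  have hL₂ : 1000 * L ≤ L₂ := by
    have h1 : α ^ 2 ≤ 1 := by nlinarith
    have h3 : 0 < α ^ 2 * L₂ := by nlinarith
    have h4 : 0 < L₂ := (pos_iff_pos_of_mul_pos h3).mp (by positivity)
    nlinarith
  have hL₂pos : 0 < L₂ := by linarith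
  have hp3 : 3 * (2 : ℝ) ^ p ≤ L₂ / 100 := by nlinarith
  have hnst : 0 ≤ nst := by
    have h1 : 0 < N := by
      have : (0 : ℝ) < N := by linarith
      exact_mod_cast this
    exact (Nat.cast_nonneg _).trans (hexo 0 h1)
  have hm0 : 0 < m := by linarith
  set Γ : ℝ := m / (200 * D) with hΓ
  have hΓ1 : 1 ≤ Γ := by
    rw [hΓ, le_div_iff₀ (by positivity)]
    linarith
  have hΓ0 : 0 < Γ := by linarith
  -- the open sets
  set Qo : Set Pl := interior (Sq z (5 * L₂)) with hQo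
  set F : ℕ → Set ℝ := fun j => pr (s j) '' (Et j ∩ Qo) with hF
  have hFo : ∀ j < N, IsOpen (F j) := by
    intro j hj
    exact pr_isOpenMap hPT (s j) _ ((hEt j hj).1.inter isOpen_interior)
  have hex : ∀ j : ℕ, ∃ I : Set (ℤ × ℤ), j < N →
      (∀ a ∈ I, a.1 ≤ p ∧ ENNReal.ofReal ((2 : ℝ) ^ a.1 / Γ) ≤ volume (F j ∩ dI a) ∧
        (a.1 < p → volume (F j ∩ dI a) ≤ ENNReal.ofReal (2 * (2 : ℝ) ^ a.1 / Γ))) ∧
      (∀ a ∈ I, ∀ b ∈ I, a ≠ b → Disjoint (dI a) (dI b)) ∧ F j ⊆ ⋃ a ∈ I, dI a ∧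
      ∀ A B : ℝ, A ≤ B → volume (Om I ∩ Icc A B) ≤
        ENNReal.ofReal (5 * Γ) * volume (F j ∩ Icc (A - 3 * (2 : ℝ) ^ p) (B + 3 * (2 : ℝ) ^ p)) := by
    intro j
    by_cases hj : j < N
    · obtain ⟨I, hI⟩ := hRA (F j) Γ p (hFo j hj) hΓ1
      exact ⟨I, fun _ => hI⟩
    · exact ⟨∅, fun h => absurd h hj⟩
  choose I hI using hex
  have hridge : ∀ j < N, ∀ y ∈ Sq z (5 * L₂), pr (s j) y ∈ F j → y ∈ Er j := by
    intro j hj y hy hyF
    obtain ⟨y₀, ⟨h1, h2⟩, h3⟩ := hyF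
    exact hEr j hj y₀ h1 (interior_subset h2) y hy h3
  have hDat : RDat N s Er F I z p L L₂ α D m nst Γ :=
    { slope := hs
      opn := hFo
      mes := fun j hj => (hEt j hj).2
      ridge := hridge
      i1 := fun j hj => (hI j hj).1
      i2 := fun j hj => (hI j hj).2.1
      i3 := fun j hj => (hI j hj).2.2.1
      i4 := fun j hj => (hI j hj).2.2.2
      al := ⟨hα, hα1⟩
      sc3 := hpL
      scN := hNL
      exo := hexo
      mn := hmn
      m1 := ⟨hm1, hmN⟩
      gam := ⟨rfl, hΓ1, hD⟩ }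
  -- R is in the set of RF1
  have hRQ : ∀ x ∈ R, x ∈ Qo := by
    intro x hxR
    have h1 := hR hxR
    rw [hQo, mem_interior]
    refine ⟨{y : Pl | |y 0 - z 0| < 5 * L₂} ∩ {y : Pl | |y 1 - z 1| < 5 * L₂}, ?_, ?_, ?_⟩
    · rintro y ⟨h2, h3⟩
      exact ⟨le_of_lt h2, le_of_lt h3⟩
    · exact (isOpen_lt (by fun_prop) continuous_const).inter
        (isOpen_lt (by fun_prop) continuous_const)
    · have h2 := h1.1
      have h3 := h1.2
      exact ⟨lt_of_le_of_lt h2 (by linarith), lt_of_le_of_lt h3 (by linarith)⟩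
  have hRF := hRF2 N s Er F I z p L L₂ α D m nst Γ hDat R (by
    intro x hxR
    obtain ⟨h1, h2, h3⟩ := hx x hxR
    refine hRF1 N s Er F I z p L L₂ α D m nst Γ hDat x (hR hxR) ?_ h2 h3
    refine h1.trans ?_
    have h4 : {j : ℕ | j < N ∧ x ∈ Et j}.ncard ≤ {j : ℕ | j < N ∧ pr (s j) x ∈ F j}.ncard := by
      refine Set.ncard_le_ncard ?_ ((Set.finite_lt_nat N).subset fun j hj => hj.1)
      rintro j ⟨hj, hxj⟩
      exact ⟨hj, x, ⟨hxj, hRQ x hxR⟩, rfl⟩
    exact_mod_cast h4)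
  -- the integral over `Hs`
  have hI1 : ∫⁻ y in Hs N s I z L L₂, ENNReal.ofReal (Gs N s I y) ^ 2 ≤
      ENNReal.ofReal (16 / 9) *
        ∫⁻ y : Pl, ENNReal.ofReal (cut z L₂ y * (Gs N s I y - Gv N s I L y) ^ 2) := by
    calc ∫⁻ y in Hs N s I z L L₂, ENNReal.ofReal (Gs N s I y) ^ 2
        ≤ ∫⁻ y in Hs N s I z L L₂, ENNReal.ofReal (16 / 9) *
            ENNReal.ofReal (cut z L₂ y * (Gs N s I y - Gv N s I L y) ^ 2) := by
          refine setLIntegral_mono' (meas_Hs N s I z L L₂ hLpos.le) ?_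
          rintro y ⟨h1, h2, h3⟩
          rw [cut_eq_one z L₂ hL₂pos y h1, one_mul, ← ENNReal.ofReal_pow h2.le,
            ← ENNReal.ofReal_mul (by norm_num)]
          apply ENNReal.ofReal_le_ofReal
          nlinarith
      _ ≤ ∫⁻ y : Pl, ENNReal.ofReal (16 / 9) *
            ENNReal.ofReal (cut z L₂ y * (Gs N s I y - Gv N s I L y) ^ 2) :=
          setLIntegral_le_lintegral _ _
      _ = _ := lintegral_const_mul' _ _ ENNReal.ofReal_ne_top
  have hI2 := hSM3 N s Er F I z p L L₂ α D m nst Γ hDat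
  have hI3 : ∀ j ∈ Finset.range N, ENNReal.ofReal (176 / 100 * L₂) *
      volume (Om (I j) ∩ Icc (pr (s j) z - 41 / 10 * L₂) (pr (s j) z + 41 / 10 * L₂)) ≤
      ENNReal.ofReal (5 * Γ) * volume (Er j ∩ Sq z (5 * L₂)) := by
    intro j hj
    rw [Finset.mem_range] at hj
    have h1 := (hI j hj).2.2.2 (pr (s j) z - 41 / 10 * L₂) (pr (s j) z + 41 / 10 * L₂)
      (by linarith)
    have h2 := hRID (s j) z (5 * L₂) (88 / 100 * L₂)
      (F j ∩ Icc (pr (s j) z - 41 / 10 * L₂ - 3 * (2 : ℝ) ^ p)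
        (pr (s j) z + 41 / 10 * L₂ + 3 * (2 : ℝ) ^ p)) (hs j hj) (by positivity) (by linarith)
      ((hFo j hj).measurableSet.inter measurableSet_Icc) (by
        rintro t ⟨-, ht⟩
        exact ⟨by linarith [ht.1], by linarith [ht.2]⟩)
    have h3 : volume {y | y ∈ Sq z (5 * L₂) ∧ pr (s j) y ∈
        F j ∩ Icc (pr (s j) z - 41 / 10 * L₂ - 3 * (2 : ℝ) ^ p)
          (pr (s j) z + 41 / 10 * L₂ + 3 * (2 : ℝ) ^ p)} ≤ volume (Er j ∩ Sq z (5 * L₂)) := by
      apply measure_mono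
      rintro y ⟨hy, hyF, -⟩
      exact ⟨hridge j hj y hy hyF, hy⟩
    have h4 : (176 / 100 * L₂ : ℝ) = 2 * (88 / 100 * L₂) := by ring
    rw [h4]
    calc ENNReal.ofReal (2 * (88 / 100 * L₂)) *
          volume (Om (I j) ∩ Icc (pr (s j) z - 41 / 10 * L₂) (pr (s j) z + 41 / 10 * L₂))
        ≤ ENNReal.ofReal (2 * (88 / 100 * L₂)) * (ENNReal.ofReal (5 * Γ) *
          volume (F j ∩ Icc (pr (s j) z - 41 / 10 * L₂ - 3 * (2 : ℝ) ^ p)
            (pr (s j) z + 41 / 10 * L₂ + 3 * (2 : ℝ) ^ p))) := by gcongr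
      _ = ENNReal.ofReal (5 * Γ) * (ENNReal.ofReal (2 * (88 / 100 * L₂)) *
          volume (F j ∩ Icc (pr (s j) z - 41 / 10 * L₂ - 3 * (2 : ℝ) ^ p)
            (pr (s j) z + 41 / 10 * L₂ + 3 * (2 : ℝ) ^ p))) := by ring
      _ ≤ ENNReal.ofReal (5 * Γ) * volume (Er j ∩ Sq z (5 * L₂)) := by
          gcongr
          exact h2.trans h3
  have hI4 : ENNReal.ofReal (40 * nst * L₂) * ∑ j ∈ Finset.range N,
        volume (Om (I j) ∩ Icc (pr (s j) z - 41 / 10 * L₂) (pr (s j) z + 41 / 10 * L₂)) ≤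
      ENNReal.ofReal (40 * nst * (100 / 176)) * (ENNReal.ofReal (5 * Γ) *
        ∑ j ∈ Finset.range N, volume (Er j ∩ Sq z (5 * L₂))) := by
    have h5 : (40 * nst * L₂ : ℝ) = 40 * nst * (100 / 176) * (176 / 100 * L₂) := by ring
    have h6 : ENNReal.ofReal (40 * nst * (100 / 176) * (176 / 100 * L₂)) =
        ENNReal.ofReal (40 * nst * (100 / 176)) * ENNReal.ofReal (176 / 100 * L₂) :=
      ENNReal.ofReal_mul (by positivity)
    rw [h5, h6, mul_assoc]
    refine mul_le_mul' le_rfl ?_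
    rw [Finset.mul_sum, Finset.mul_sum]
    exact Finset.sum_le_sum hI3
  have hof : ∀ a b c d : ℝ, 0 ≤ a → 0 ≤ b → 0 ≤ c → ENNReal.ofReal (a * b * c * d) =
      ENNReal.ofReal a * (ENNReal.ofReal b * (ENNReal.ofReal c * ENNReal.ofReal d)) := by
    intro a b c d ha hb hc
    have e1 : ENNReal.ofReal (a * b * c * d) = ENNReal.ofReal (a * b * c) * ENNReal.ofReal d :=
      ENNReal.ofReal_mul (by positivity)
    have e2 : ENNReal.ofReal (a * b * c) = ENNReal.ofReal (a * b) * ENNReal.ofReal c :=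
      ENNReal.ofReal_mul (by positivity)
    have e3 : ENNReal.ofReal (a * b) = ENNReal.ofReal a * ENNReal.ofReal b :=
      ENNReal.ofReal_mul ha
    rw [e1, e2, e3]
    ring
  calc volume R ≤ ENNReal.ofReal (23 / (m ^ 2 * Γ ^ 2)) *
        ∫⁻ y in Hs N s I z L L₂, ENNReal.ofReal (Gs N s I y) ^ 2 := hRF
    _ ≤ ENNReal.ofReal (23 / (m ^ 2 * Γ ^ 2)) * (ENNReal.ofReal (16 / 9) *
        (ENNReal.ofReal (40 * nst * (100 / 176)) * (ENNReal.ofReal (5 * Γ) *
          ∑ j ∈ Finset.range N, volume (Er j ∩ Sq z (5 * L₂))))) := by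
        gcongr
        refine hI1.trans ?_
        gcongr
        exact hI2.trans hI4
    _ = ENNReal.ofReal (23 / (m ^ 2 * Γ ^ 2) * (16 / 9) * (40 * nst * (100 / 176)) * (5 * Γ)) *
          ∑ j ∈ Finset.range N, volume (Er j ∩ Sq z (5 * L₂)) := by
        rw [hof _ _ _ _ (by positivity) (by norm_num) (by positivity)]
        ring
    _ ≤ ENNReal.ofReal (1000000 * nst * D / m ^ 3) *
          ∑ j ∈ Finset.range N, volume (Er j ∩ Sq z (5 * L₂)) := by
        gcongr
        have h6 : 23 / (m ^ 2 * Γ ^ 2) * (16 / 9) * (40 * nst * (100 / 176)) * (5 * Γ) =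
            (23 * (16 / 9) * 40 * (100 / 176) * 5 * 200) * (nst * D / m ^ 3) := by
          rw [hΓ]
          field_simp
        rw [h6]
        have h7 : 0 ≤ nst * D / m ^ 3 := by positivity
        calc (23 * (16 / 9) * 40 * (100 / 176) * 5 * 200) * (nst * D / m ^ 3)
            ≤ 1000000 * (nst * D / m ^ 3) := by
              apply mul_le_mul_of_nonneg_right _ h7
              norm_num
          _ = 1000000 * nst * D / m ^ 3 := by ring

end Pool.Agent.Helper67.RG
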